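import Mathlib

/-!
# Read-once branching programs

Branching programs (deterministic and nondeterministic), read-once programs, layered formulas of
constant depth.
-/

set_option autoImplicit false

namespace Pool.Agent.W2helper60.RO

/-- A node of a branching program with `N` input variables and node set `V`: a sink with a value, a
test of the variable `i` with its `0`-successor and its `1`-successor, or a guessing node with its
set of successors (reached by unlabelled edges). -/
inductive Node (N : ℕ) (V : Type) : Type
  | sink (b : Bool) : Node N V
  | test (i : Fin N) (v₀ v₁ : V) : Node N V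
  | guess (S : Set V) : Node N V

/-- A branching program in the variables `x_0, ..., x_(N-1)`: a finite acyclic graph (along every
edge the rank decreases) with a start node. -/
structure BP (N : ℕ) where
  /-- the nodes -/
  V : Type
  /-- there are finitely many nodes -/
  fin : Fintype V
  /-- the source -/
  start : V
  /-- the kind of a node -/
  node : V → Node N V
  /-- witness of acyclicity -/
  rank : V → ℕ
  rank_test : ∀ v i v₀ v₁, node v = .test i v₀ v₁ → rank v₀ < rank v ∧ rank v₁ < rank v
  rank_guess : ∀ v S, node v = .guess S → ∀ u ∈ S, rank u < rank v

namespace BP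

variable {N : ℕ} (P : BP N)

/-- `P.Path v l w`: there is a path from `v` to `w` along which the tests and their answers are `l`
(in this order). -/
inductive Path : P.V → List (Fin N × Bool) → P.V → Prop
  | nil (v : P.V) : Path v [] v
  | test (v : P.V) (i : Fin N) (v₀ v₁ : P.V) (b : Bool) (l : List (Fin N × Bool)) (w : P.V) :
      P.node v = .test i v₀ v₁ → Path (if b then v₁ else v₀) l w → Path v ((i, b) :: l) w
  | guess (v : P.V) (S : Set P.V) (u : P.V) (l : List (Fin N × Bool)) (w : P.V) :
      P.node v = .guess S → u ∈ S → Path u l w → Path v l w

/-- Read-once: on every path from the source every variable is tested at most once. -/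
def ReadOnce : Prop := ∀ l w, P.Path P.start l w → (l.map Prod.fst).Nodup

/-- Deterministic: there are no guessing nodes. -/
def Det : Prop := ∀ v S, P.node v ≠ .guess S

/-- The input `x` is accepted: some path consistent with `x` leads from the source to a `1`-sink. -/
def Accepts (x : Fin N → Bool) : Prop :=
  ∃ l w, P.Path P.start l w ∧ P.node w = .sink true ∧ ∀ p ∈ l, x p.1 = p.2

/-- The program computes `f`. -/
def Computes (f : (Fin N → Bool) → Bool) : Prop := ∀ x, f x = true ↔ P.Accepts x

/-- The size: the number of nodes. -/
def size : ℕ := @Fintype.card P.V P.fin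

end BP

/-- Layered formulas of depth `d` over the literals `(i, b)` (true when `x_i = b`). -/
def Lay (n : ℕ) : ℕ → Type
  | 0 => Fin n × Bool
  | d + 1 => List (Lay n d)

/-- Value of a layered formula; the top gate is an OR if `top = true` and an AND if `top = false`,
and the kind of the gates alternates from layer to layer. -/
def Lay.eval {n : ℕ} (x : Fin n → Bool) : (d : ℕ) → (top : Bool) → Lay n d → Bool
  | 0, _, p => x p.1 == p.2
  | d + 1, true, L => List.any L (fun C => Lay.eval x d false C)
  | d + 1, false, L => List.all L (fun C => Lay.eval x d true C)

/-- Size of a layered formula: number of gates and literal leaves. -/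
def Lay.size {n : ℕ} : (d : ℕ) → Lay n d → ℕ
  | 0, _ => 1
  | d + 1, L => 1 + (List.map (fun C => Lay.size d C) L).sum

/-- The class `Σ_d^p` (`top = true`) and `Π_d^p` (`top = false`): sequences of Boolean functions
computed by polynomial-size layered formulas of depth `d` with the given top gate. -/
def PolyDepth (d : ℕ) (top : Bool) (f : (n : ℕ) → (Fin n → Bool) → Bool) : Prop :=
  ∃ p : Polynomial ℕ, ∀ n, ∃ L : Lay n d, L.size d ≤ p.eval n ∧ ∀ x, f n x = L.eval x d top

/-- Polynomial-size nondeterministic read-once branching programs. -/
def PolyNRO (f : (n : ℕ) → (Fin n → Bool) → Bool) : Prop :=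
  ∃ p : Polynomial ℕ, ∀ n, ∃ P : BP n, P.ReadOnce ∧ P.Computes (f n) ∧ P.size ≤ p.eval n

/-- `f` separates `NP ∩ co-NP` from quasipolynomial size for deterministic read-once branching
programs: `f` and `¬f` have nondeterministic read-once programs of polynomial size and, for every
constant `c`, for all sufficiently large `n` every deterministic read-once program for `f n` has
size more than `2 ^ ((log n) ^ c)`. -/
def Separates (f : (n : ℕ) → (Fin n → Bool) → Bool) : Prop :=
  PolyNRO f ∧ PolyNRO (fun n x => !f n x) ∧
    ∀ c : ℕ, ∀ᶠ n : ℕ in Filter.atTop, ∀ P : BP n, P.Det → P.ReadOnce → P.Computes (f n) →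
      (2 : ℝ) ^ ((Real.logb 2 n) ^ c) < (P.size : ℝ)

end Pool.Agent.W2helper60.RO
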