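import Pool.Agent.W2helper60.RO.Defs

/-!
# The lower bound

`f x = 1` iff the matrix has a zero row and a zero column. Deterministic read-once programs for `f`
need `2 ^ s` nodes for `m × m` matrices with `m ≥ 4 s ^ 2 + 2`.
-/

set_option autoImplicit false

namespace Pool.Agent.W2helper60.RO

namespace BP

variable {N : ℕ} {P : BP N}

theorem Path.append {u v w : P.V} {l r : List (Fin N × Bool)} (h : P.Path u l v)
    (h' : P.Path v r w) : P.Path u (l ++ r) w := by
  induction h with
  | nil v => exact h'
  | test v i v₀ v₁ b l w hn _ ih => exact .test v i v₀ v₁ b _ _ hn (ih h')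
  | guess v S u l w hn hu _ ih => exact .guess v S u _ _ hn hu (ih h')

/-- the path of an input is unique up to the sink -/
theorem Path.split (hD : P.Det) (x : Fin N → Bool) {u v w : P.V} {l L : List (Fin N × Bool)}
    (h : P.Path u l v) (hl : ∀ p ∈ l, x p.1 = p.2) (H : P.Path u L w) (hL : ∀ p ∈ L, x p.1 = p.2)
    (hw : ∃ b, P.node w = .sink b) : ∃ r, L = l ++ r ∧ P.Path v r w := by
  induction h generalizing L with
  | nil v => exact ⟨L, rfl, H⟩
  | guess v S u l w hn hu _ ih => exact absurd hn (hD v S)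
  | test v i v₀ v₁ b l w' hn _ ih =>
    cases H with
    | nil v =>
      obtain ⟨b', hb'⟩ := hw
      rw [hn] at hb'
      cases hb'
    | guess v S u l w hn' _ _ => exact absurd hn' (hD v S)
    | test v i' v₀' v₁' b' l' w hn' h' =>
      rw [hn] at hn'
      cases hn'
      have h1 : b = b' := by
        have h2 := hl (i, b) List.mem_cons_self
        have h3 := hL (i, b') List.mem_cons_self
        exact h2.symm.trans h3
      subst h1
      obtain ⟨r, hr, hr'⟩ := ih (fun p hp => hl p (List.mem_cons_of_mem _ hp)) h'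
        (fun p hp => hL p (List.mem_cons_of_mem _ hp))
      exact ⟨r, by rw [hr]; rfl, hr'⟩

end BP

section matrix

variable {n m : ℕ}

/-- the function: some row and some column of the matrix `x (e (i, j))` are zero -/
def Zf (e : Fin m × Fin m → Fin n) (x : Fin n → Bool) : Bool :=
  decide ((∃ i, ∀ j, x (e (i, j)) = false) ∧ (∃ j, ∀ i, x (e (i, j)) = false))

theorem Zf_iff (e : Fin m × Fin m → Fin n) (x : Fin n → Bool) :
    Zf e x = true ↔ (∃ i, ∀ j, x (e (i, j)) = false) ∧ (∃ j, ∀ i, x (e (i, j)) = false) := by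
  unfold Zf
  rw [decide_eq_true_iff]

theorem Zf_swap (e : Fin m × Fin m → Fin n) : Zf (e ∘ Prod.swap) = Zf e := by
  funext x
  rw [Bool.eq_iff_iff, Zf_iff, Zf_iff]
  exact and_comm

open Classical in
/-- tested matrix entries -/
noncomputable def tst (e : Fin m × Fin m → Fin n) (l : List (Fin n × Bool)) :
    Finset (Fin m × Fin m) := Finset.univ.filter (fun p => e p ∈ l.map Prod.fst)

open Classical in
/-- matrix entries tested with answer `1` -/
noncomputable def one (e : Fin m × Fin m → Fin n) (l : List (Fin n × Bool)) :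
    Finset (Fin m × Fin m) := Finset.univ.filter (fun p => (e p, true) ∈ l)

theorem mem_tst {e : Fin m × Fin m → Fin n} {l : List (Fin n × Bool)} {p : Fin m × Fin m} :
    p ∈ tst e l ↔ e p ∈ l.map Prod.fst := by
  simp [tst]

theorem mem_one {e : Fin m × Fin m → Fin n} {l : List (Fin n × Bool)} {p : Fin m × Fin m} :
    p ∈ one e l ↔ (e p, true) ∈ l := by
  simp [one]

/-- variables outside the matrix are answered `0` -/
def Dum (e : Fin m × Fin m → Fin n) (l : List (Fin n × Bool)) : Prop :=
  ∀ q ∈ l, q.2 = true → ∃ p, e p = q.1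

open Classical in
/-- the input which follows `l`, is `0` outside the matrix and at the entries in `T`, and is
`c` at the other entries -/
noncomputable def inp (e : Fin m × Fin m → Fin n) (l : List (Fin n × Bool))
    (T : Finset (Fin m × Fin m)) (c : Fin m × Fin m → Bool) (i : Fin n) : Bool :=
  decide ((i, true) ∈ l ∨ (i ∉ l.map Prod.fst ∧ ∃ p, e p = i ∧ p ∉ T ∧ c p = true))

theorem inp_cons {e : Fin m × Fin m → Fin n} {l : List (Fin n × Bool)}
    {T : Finset (Fin m × Fin m)} {c : Fin m × Fin m → Bool} (hl : (l.map Prod.fst).Nodup) :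
    ∀ q ∈ l, inp e l T c q.1 = q.2 := by
  rintro ⟨i, b⟩ hq
  unfold inp
  cases b
  · rw [decide_eq_false_iff_not]
    rintro (h | h)
    · have h1 := List.inj_on_of_nodup_map hl h hq rfl
      cases h1
    · exact h.1 (List.mem_map_of_mem hq)
  · rw [decide_eq_true_iff]
    exact Or.inl hq

/-- variables outside both lists have the same value -/
theorem inp_eq {e : Fin m × Fin m → Fin n} {l l' : List (Fin n × Bool)}
    {c : Fin m × Fin m → Bool} {i : Fin n}
    (h : i ∉ l.map Prod.fst) (h' : i ∉ l'.map Prod.fst) :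
    inp e l (tst e l') c i = inp e l' (tst e l) c i := by
  have key : ∀ l l' : List (Fin n × Bool), i ∉ l.map Prod.fst → i ∉ l'.map Prod.fst →
      (((i, true) ∈ l ∨ (i ∉ l.map Prod.fst ∧ ∃ p, e p = i ∧ p ∉ tst e l' ∧ c p = true)) ↔
        ∃ p, e p = i ∧ c p = true) := by
    intro l l' h h'
    constructor
    · rintro (h1 | ⟨-, p, h1, -, h2⟩)
      · exact absurd (List.mem_map_of_mem (f := Prod.fst) h1) h
      · exact ⟨p, h1, h2⟩
    · rintro ⟨p, h1, h2⟩
      refine Or.inr ⟨h, p, h1, ?_, h2⟩
      rw [mem_tst, h1]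
      exact h'
  unfold inp
  rw [Bool.eq_iff_iff, decide_eq_true_iff, decide_eq_true_iff, key l l' h h', key l' l h' h]

theorem inp_mat {e : Fin m × Fin m → Fin n} {l : List (Fin n × Bool)}
    {T : Finset (Fin m × Fin m)} {c : Fin m × Fin m → Bool} (he : Function.Injective e)
    (p : Fin m × Fin m) :
    inp e l T c (e p) = true ↔ (p ∈ one e l ∨ (p ∉ tst e l ∧ p ∉ T ∧ c p = true)) := by
  unfold inp
  rw [decide_eq_true_iff, mem_one, mem_tst]
  constructor
  · rintro (h | ⟨h, p', h1, h2, h3⟩)
    · exact Or.inl h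
    · obtain rfl := he h1
      exact Or.inr ⟨h, h2, h3⟩
  · rintro (h | ⟨h, h2, h3⟩)
    · exact Or.inl h
    · exact Or.inr ⟨h, p, rfl, h2, h3⟩

theorem one_subset_tst (e : Fin m × Fin m → Fin n) (l : List (Fin n × Bool)) :
    one e l ⊆ tst e l := by
  intro p hp
  rw [mem_one] at hp
  rw [mem_tst]
  exact List.mem_map_of_mem (f := Prod.fst) hp

/-- merging paths have the same nonzero columns -/
theorem merge_col {P : BP n} {e : Fin m × Fin m → Fin n} (he : Function.Injective e) (hD : P.Det)
    (hR : P.ReadOnce) (hf : P.Computes (Zf e)) {l l' : List (Fin n × Bool)} {v : P.V}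
    (hl : P.Path P.start l v) (hl' : P.Path P.start l' v)
    (hc : (tst e l ∪ tst e l').card + 2 ≤ m) (h1 : ((one e l).card + (one e l').card) < m) :
    (one e l).image Prod.snd ⊆ (one e l').image Prod.snd := by
  classical
  intro j hj
  by_contra hj'
  -- a row without ones
  obtain ⟨i₀, hi₀⟩ : ∃ i₀, i₀ ∉ (one e l).image Prod.fst ∪ (one e l').image Prod.fst := by
    by_contra hcon
    push Not at hcon
    have h2 : (Finset.univ : Finset (Fin m)).card ≤
        ((one e l).image Prod.fst ∪ (one e l').image Prod.fst).card :=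
      Finset.card_le_card (fun i _ => hcon i)
    rw [Finset.card_univ, Fintype.card_fin] at h2
    have h3 := Finset.card_union_le ((one e l).image Prod.fst) ((one e l').image Prod.fst)
    have h4 := Finset.card_image_le (s := one e l) (f := Prod.fst)
    have h5 := Finset.card_image_le (s := one e l') (f := Prod.fst)
    omega
  rw [Finset.mem_union, not_or] at hi₀
  obtain ⟨hi₁, hi₂⟩ := hi₀
  set c : Fin m × Fin m → Bool := fun p => decide (p.1 ≠ i₀ ∧ p.2 ≠ j) with hcdef
  -- the input following `l'`
  have hX' : Zf e (inp e l' (tst e l) c) = true := by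
    rw [Zf_iff]
    constructor
    · refine ⟨i₀, fun j' => ?_⟩
      rw [← Bool.not_eq_true, inp_mat he]
      rintro (h | ⟨-, -, h⟩)
      · exact hi₂ (Finset.mem_image_of_mem Prod.fst h)
      · simp [hcdef] at h
    · refine ⟨j, fun i => ?_⟩
      rw [← Bool.not_eq_true, inp_mat he]
      rintro (h | ⟨-, -, h⟩)
      · exact hj' (Finset.mem_image_of_mem Prod.snd h)
      · simp [hcdef] at h
  have hN := hR _ _ hl
  have hN' := hR _ _ hl'
  obtain ⟨L, w, hL, hw, hLc⟩ := (hf _).1 hX'
  obtain ⟨r, rfl, hr⟩ := BP.Path.split hD _ hl' (inp_cons hN') hL hLc ⟨true, hw⟩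
  have hlr := hl.append hr
  have hl'r := hl'.append hr
  have hRl := hR _ _ hlr
  have hRl' := hR _ _ hl'r
  rw [List.map_append, List.nodup_append] at hRl hRl'
  have hX : Zf e (inp e l (tst e l') c) = true := by
    rw [hf]
    refine ⟨l ++ r, w, hlr, hw, ?_⟩
    intro q hq
    rcases List.mem_append.1 hq with hq | hq
    · exact inp_cons hN q hq
    · rw [inp_eq]
      · exact hLc q (List.mem_append_right _ hq)
      · intro h
        exact hRl.2.2 _ h _ (List.mem_map_of_mem hq) rfl
      · intro h
        exact hRl'.2.2 _ h _ (List.mem_map_of_mem hq) rfl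
  rw [Zf_iff] at hX
  obtain ⟨-, j', hj'2⟩ := hX
  by_cases hjj : j' = j
  · subst hjj
    obtain ⟨p, hp, hp2⟩ := Finset.mem_image.1 hj
    obtain ⟨a, b⟩ := p
    have hb : b = j' := hp2
    subst hb
    have h2 := hj'2 a
    rw [← Bool.not_eq_true, inp_mat he] at h2
    exact h2 (Or.inl hp)
  · -- a free entry in column `j'`
    obtain ⟨i, hi, hi3⟩ : ∃ i, i ≠ i₀ ∧ (i, j') ∉ tst e l ∪ tst e l' := by
      by_contra hcon
      push Not at hcon
      have h2 : ((Finset.univ : Finset (Fin m)).erase i₀).card ≤
          ((tst e l ∪ tst e l').image Prod.fst).card := by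
        refine Finset.card_le_card (fun i hi => ?_)
        rw [Finset.mem_erase] at hi
        exact Finset.mem_image_of_mem Prod.fst (hcon i hi.1)
      rw [Finset.card_erase_of_mem (Finset.mem_univ _), Finset.card_univ, Fintype.card_fin] at h2
      have h3 := Finset.card_image_le (s := tst e l ∪ tst e l') (f := Prod.fst)
      omega
    rw [Finset.mem_union, not_or] at hi3
    have h2 := hj'2 i
    rw [← Bool.not_eq_true, inp_mat he] at h2
    exact h2 (Or.inr ⟨hi3.1, hi3.2, by simp [hcdef, hi, hjj]⟩)

theorem tst_swap (e : Fin m × Fin m → Fin n) (l : List (Fin n × Bool)) :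
    tst (e ∘ Prod.swap) l = (tst e l).map (Equiv.prodComm _ _).toEmbedding := by
  ext p
  simp only [mem_tst, Function.comp_apply, Finset.mem_map_equiv]
  rfl

theorem one_swap (e : Fin m × Fin m → Fin n) (l : List (Fin n × Bool)) :
    one (e ∘ Prod.swap) l = (one e l).map (Equiv.prodComm _ _).toEmbedding := by
  ext p
  simp only [mem_one, Function.comp_apply, Finset.mem_map_equiv]
  rfl

/-- merging paths have the same nonzero rows -/
theorem merge_row {P : BP n} {e : Fin m × Fin m → Fin n} (he : Function.Injective e) (hD : P.Det)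
    (hR : P.ReadOnce) (hf : P.Computes (Zf e)) {l l' : List (Fin n × Bool)} {v : P.V}
    (hl : P.Path P.start l v) (hl' : P.Path P.start l' v)
    (hc : (tst e l ∪ tst e l').card + 2 ≤ m) (h1 : ((one e l).card + (one e l').card) < m) :
    (one e l).image Prod.fst ⊆ (one e l').image Prod.fst := by
  classical
  have h2 := merge_col (e := e ∘ Prod.swap) (he.comp Prod.swap_injective) hD hR
    (by rw [Zf_swap]; exact hf) hl hl'
    (by rw [tst_swap, tst_swap, ← Finset.map_union, Finset.card_map]; exact hc)
    (by rw [one_swap, one_swap, Finset.card_map, Finset.card_map]; exact h1)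
  intro i hi
  obtain ⟨p, hp, rfl⟩ := Finset.mem_image.1 hi
  have h3 : p.1 ∈ (one (e ∘ Prod.swap) l).image Prod.snd := by
    refine Finset.mem_image.2 ⟨p.swap, ?_, rfl⟩
    rw [mem_one] at hp ⊢
    simpa using hp
  obtain ⟨p', hp', hp2⟩ := Finset.mem_image.1 (h2 h3)
  refine Finset.mem_image.2 ⟨p'.swap, ?_, hp2⟩
  rw [mem_one] at hp' ⊢
  exact hp'

end matrix

end Pool.Agent.W2helper60.RO
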