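import Pool.Agent.W2helper60.RO.Lower

/-!
# The lower bound, counting part
-/

set_option autoImplicit false

namespace Pool.Agent.W2helper60.RO

section count

variable {n m : ℕ}

open Classical in
/-- the answers to the tests of matrix entries -/
noncomputable def ans (e : Fin m × Fin m → Fin n) (l : List (Fin n × Bool)) : List Bool :=
  (l.filter (fun q => decide (∃ p, e p = q.1))).map Prod.snd

theorem ans_append (e : Fin m × Fin m → Fin n) (l l' : List (Fin n × Bool)) :
    ans e (l ++ l') = ans e l ++ ans e l' := by
  simp [ans]

theorem ans_cons_real {e : Fin m × Fin m → Fin n} (p : Fin m × Fin m) (b : Bool)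
    (l : List (Fin n × Bool)) : ans e ((e p, b) :: l) = b :: ans e l := by
  simp only [ans]
  rw [List.filter_cons_of_pos (by simp)]
  rfl

theorem ans_cons_dum {e : Fin m × Fin m → Fin n} {i : Fin n} (hi : ¬ ∃ p, e p = i) (b : Bool)
    (l : List (Fin n × Bool)) : ans e ((i, b) :: l) = ans e l := by
  simp only [ans]
  rw [List.filter_cons_of_neg (by simpa using hi)]

theorem card_tst {e : Fin m × Fin m → Fin n} (he : Function.Injective e)
    {l : List (Fin n × Bool)} (hl : (l.map Prod.fst).Nodup) :
    (tst e l).card = (ans e l).length := by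
  classical
  induction l with
  | nil => simp [tst, ans]
  | cons q l ih =>
    obtain ⟨i, b⟩ := q
    rw [List.map_cons, List.nodup_cons] at hl
    have ih' := ih hl.2
    by_cases hi : ∃ p, e p = i
    · obtain ⟨p, rfl⟩ := hi
      rw [ans_cons_real, List.length_cons, ← ih']
      have h1 : tst e ((e p, b) :: l) = insert p (tst e l) := by
        ext p'
        rw [Finset.mem_insert, mem_tst, mem_tst, List.map_cons, List.mem_cons]
        constructor
        · rintro (h | h)
          · exact Or.inl (he h)
          · exact Or.inr h
        · rintro (h | h)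
          · exact Or.inl (by rw [h])
          · exact Or.inr h
      rw [h1, Finset.card_insert_of_notMem]
      rw [mem_tst]
      exact hl.1
    · rw [ans_cons_dum hi, ← ih']
      congr 1
      ext p'
      rw [mem_tst, mem_tst, List.map_cons, List.mem_cons]
      constructor
      · rintro (h | h)
        · exact absurd ⟨p', h⟩ hi
        · exact h
      · exact Or.inr

theorem card_one {e : Fin m × Fin m → Fin n} (he : Function.Injective e)
    {l : List (Fin n × Bool)} (hl : (l.map Prod.fst).Nodup) :
    (one e l).card = (ans e l).count true := by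
  classical
  induction l with
  | nil => simp [one, ans]
  | cons q l ih =>
    obtain ⟨i, b⟩ := q
    rw [List.map_cons, List.nodup_cons] at hl
    have ih' := ih hl.2
    by_cases hi : ∃ p, e p = i
    · obtain ⟨p, rfl⟩ := hi
      rw [ans_cons_real]
      cases b
      · rw [List.count_cons_of_ne (by decide), ← ih']
        congr 1
        ext p'
        rw [mem_one, mem_one, List.mem_cons]
        constructor
        · rintro (h | h)
          · exact absurd (Prod.mk.inj h).2 (by decide)
          · exact h
        · exact Or.inr
      · rw [List.count_cons_self, ← ih']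
        have h1 : one e ((e p, true) :: l) = insert p (one e l) := by
          ext p'
          rw [Finset.mem_insert, mem_one, mem_one, List.mem_cons]
          constructor
          · rintro (h | h)
            · exact Or.inl (he (Prod.mk.inj h).1)
            · exact Or.inr h
          · rintro (h | h)
            · exact Or.inl (by rw [h])
            · exact Or.inr h
        rw [h1, Finset.card_insert_of_notMem]
        rw [mem_one]
        intro h
        exact hl.1 (List.mem_map_of_mem (f := Prod.fst) h)
    · rw [ans_cons_dum hi, ← ih']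
      congr 1
      ext p'
      rw [mem_one, mem_one, List.mem_cons]
      constructor
      · rintro (h | h)
        · exact absurd ⟨p', (Prod.mk.inj h).1⟩ hi
        · exact h
      · exact Or.inr

/-- two paths with the same variables answered by `1` -/
theorem ans_inj {P : BP n} {e : Fin m × Fin m → Fin n} (hD : P.Det)
    {u v v' : P.V} {l l' : List (Fin n × Bool)} (h : P.Path u l v) (h' : P.Path u l' v')
    (hl : (l.map Prod.fst).Nodup) (hl' : (l'.map Prod.fst).Nodup)
    (hone : ∀ i, (i, true) ∈ l ↔ (i, true) ∈ l') (hlen : (ans e l).length = (ans e l').length) :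
    ans e l = ans e l' := by
  induction h generalizing l' with
  | nil v =>
    have h1 : (ans e l').length = 0 := by
      rw [← hlen]
      simp [ans]
    rw [List.length_eq_zero_iff.1 h1]
    simp [ans]
  | guess v S u l w hn hu _ ih => exact absurd hn (hD v S)
  | test v i v₀ v₁ b l w hn _ ih =>
    cases h' with
    | nil _ =>
      have h1 : (ans e ((i, b) :: l)).length = 0 := by
        rw [hlen]
        simp [ans]
      rw [List.length_eq_zero_iff.1 h1]
      simp [ans]
    | guess _ S _ _ _ hn' _ _ => exact absurd hn' (hD v S)
    | test _ i' v₀' v₁' b' l' _ hn' h'' =>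
      rw [hn] at hn'
      cases hn'
      rw [List.map_cons, List.nodup_cons] at hl hl'
      have hbb : b = b' := by
        cases b <;> cases b'
        · rfl
        · have h1 := (hone i).2 List.mem_cons_self
          rcases List.mem_cons.1 h1 with h1 | h1
          · cases h1
          · exact absurd (List.mem_map_of_mem (f := Prod.fst) h1) hl.1
        · have h1 := (hone i).1 List.mem_cons_self
          rcases List.mem_cons.1 h1 with h1 | h1
          · cases h1
          · exact absurd (List.mem_map_of_mem (f := Prod.fst) h1) hl'.1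
        · rfl
      subst hbb
      have hone' : ∀ j, (j, true) ∈ l ↔ (j, true) ∈ l' := by
        intro j
        constructor
        · intro hj
          have h1 := (hone j).1 (List.mem_cons_of_mem _ hj)
          rcases List.mem_cons.1 h1 with h1 | h1
          · have h2 : j = i := (Prod.mk.inj h1).1
            subst h2
            exact absurd (List.mem_map_of_mem (f := Prod.fst) hj) hl.1
          · exact h1
        · intro hj
          have h1 := (hone j).2 (List.mem_cons_of_mem _ hj)
          rcases List.mem_cons.1 h1 with h1 | h1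
          · have h2 : j = i := (Prod.mk.inj h1).1
            subst h2
            exact absurd (List.mem_map_of_mem (f := Prod.fst) hj) hl'.1
          · exact h1
      by_cases hi : ∃ p, e p = i
      · obtain ⟨p, rfl⟩ := hi
        rw [ans_cons_real, ans_cons_real, List.length_cons, List.length_cons] at hlen
        rw [ans_cons_real, ans_cons_real]
        rw [ih h'' hl.2 hl'.2 hone' (Nat.succ.inj hlen)]
      · rw [ans_cons_dum hi, ans_cons_dum hi] at hlen ⊢
        exact ih h'' hl.2 hl'.2 hone' hlen

/-- skip the tests of variables outside the matrix -/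
theorem skip {P : BP n} (e : Fin m × Fin m → Fin n) (hD : P.Det) (k : ℕ) :
    ∀ u : P.V, P.rank u ≤ k → ∃ l w, P.Path u l w ∧ Dum e l ∧ ans e l = [] ∧
      ((∃ b, P.node w = .sink b) ∨ (∃ p v₀ v₁, P.node w = .test (e p) v₀ v₁)) := by
  induction k with
  | zero =>
    intro u hu
    rcases hn : P.node u with b | ⟨i, v₀, v₁⟩ | S
    · exact ⟨[], u, .nil u, by simp [Dum], by simp [ans], Or.inl ⟨b, hn⟩⟩
    · have := P.rank_test u i v₀ v₁ hn
      omega
    · exact absurd hn (hD u S)
  | succ k ih =>
    intro u hu
    rcases hn : P.node u with b | ⟨i, v₀, v₁⟩ | S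
    · exact ⟨[], u, .nil u, by simp [Dum], by simp [ans], Or.inl ⟨b, hn⟩⟩
    · by_cases hi : ∃ p, e p = i
      · obtain ⟨p, rfl⟩ := hi
        exact ⟨[], u, .nil u, by simp [Dum], by simp [ans], Or.inr ⟨p, v₀, v₁, hn⟩⟩
      · have h1 := P.rank_test u i v₀ v₁ hn
        obtain ⟨l, w, hl, hd, ha, hw⟩ := ih v₀ (by omega)
        refine ⟨(i, false) :: l, w, .test u i v₀ v₁ false l w hn (by simpa using hl), ?_, ?_, hw⟩
        · intro q hq hq2
          rcases List.mem_cons.1 hq with rfl | hq
          · cases hq2
          · exact hd q hq hq2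
        · rw [ans_cons_dum hi, ha]
    · exact absurd hn (hD u S)

/-- after fewer than `m` tests of matrix entries no sink is reached -/
theorem nonsink {P : BP n} {e : Fin m × Fin m → Fin n} (he : Function.Injective e) (hD : P.Det)
    (hR : P.ReadOnce) (hf : P.Computes (Zf e)) {l : List (Fin n × Bool)} {v : P.V}
    (hl : P.Path P.start l v) (hc : (ans e l).length < m) (b : Bool) :
    P.node v ≠ .sink b := by
  classical
  intro hb
  have hN := hR _ _ hl
  have hcard := card_tst he hN
  cases b
  · -- the remaining entries are `0`
    have h1 : Zf e (inp e l ∅ (fun _ => false)) = true := by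
      rw [Zf_iff]
      constructor
      · obtain ⟨i, hi⟩ : ∃ i, i ∉ (tst e l).image Prod.fst := by
          by_contra hcon
          push Not at hcon
          have h2 : (Finset.univ : Finset (Fin m)).card ≤ ((tst e l).image Prod.fst).card :=
            Finset.card_le_card (fun i _ => hcon i)
          rw [Finset.card_univ, Fintype.card_fin] at h2
          have h3 := Finset.card_image_le (s := tst e l) (f := Prod.fst)
          omega
        refine ⟨i, fun j => ?_⟩
        rw [← Bool.not_eq_true, inp_mat he]
        rintro (h | ⟨-, -, h⟩)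
        · exact hi (Finset.mem_image_of_mem Prod.fst (one_subset_tst e l h))
        · cases h
      · obtain ⟨j, hj⟩ : ∃ j, j ∉ (tst e l).image Prod.snd := by
          by_contra hcon
          push Not at hcon
          have h2 : (Finset.univ : Finset (Fin m)).card ≤ ((tst e l).image Prod.snd).card :=
            Finset.card_le_card (fun i _ => hcon i)
          rw [Finset.card_univ, Fintype.card_fin] at h2
          have h3 := Finset.card_image_le (s := tst e l) (f := Prod.snd)
          omega
        refine ⟨j, fun i => ?_⟩
        rw [← Bool.not_eq_true, inp_mat he]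
        rintro (h | ⟨-, -, h⟩)
        · exact hj (Finset.mem_image_of_mem Prod.snd (one_subset_tst e l h))
        · cases h
    obtain ⟨L, w, hL, hw, hLc⟩ := (hf _).1 h1
    obtain ⟨r, -, hr⟩ := BP.Path.split hD _ hl (inp_cons hN) hL hLc ⟨true, hw⟩
    cases hr with
    | nil _ =>
      rw [hb] at hw
      cases hw
    | test _ _ _ _ _ _ _ hn _ =>
      rw [hb] at hn
      cases hn
    | guess _ _ _ _ _ hn _ _ =>
      rw [hb] at hn
      cases hn
  · have h1 : Zf e (inp e l ∅ (fun _ => true)) = true := by
      rw [hf]
      exact ⟨l, v, hl, hb, inp_cons hN⟩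
    rw [Zf_iff] at h1
    obtain ⟨⟨i, hi⟩, -⟩ := h1
    obtain ⟨j, hj⟩ : ∃ j, (i, j) ∉ tst e l := by
      by_contra hcon
      push Not at hcon
      have h2 : (Finset.univ : Finset (Fin m)).card ≤ ((tst e l).image Prod.snd).card :=
        Finset.card_le_card (fun j _ => Finset.mem_image_of_mem Prod.snd (hcon j))
      rw [Finset.card_univ, Fintype.card_fin] at h2
      have h3 := Finset.card_image_le (s := tst e l) (f := Prod.snd)
      omega
    have h2 := hi j
    rw [← Bool.not_eq_true, inp_mat he] at h2
    exact h2 (Or.inr ⟨hj, Finset.notMem_empty _, rfl⟩)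

/-- every sequence of answers is realized -/
theorem realize {P : BP n} {e : Fin m × Fin m → Fin n} (he : Function.Injective e) (hD : P.Det)
    (hR : P.ReadOnce) (hf : P.Computes (Zf e)) (σ : List Bool) (hσ : σ.length < m) :
    ∃ l w, P.Path P.start l w ∧ Dum e l ∧ ans e l = σ ∧
      ∃ p v₀ v₁, P.node w = .test (e p) v₀ v₁ := by
  induction σ using List.reverseRecOn with
  | nil =>
    obtain ⟨l, w, hl, hd, ha, hw⟩ := skip e hD _ P.start le_rfl
    refine ⟨l, w, hl, hd, ha, ?_⟩
    rcases hw with ⟨b, hb⟩ | hw
    · exact absurd hb (nonsink he hD hR hf hl (by rw [ha]; exact hσ) b)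
    · exact hw
  | append_singleton σ b ih =>
    rw [List.length_append, List.length_singleton] at hσ
    obtain ⟨l, w, hl, hd, ha, p, v₀, v₁, hn⟩ := ih (by omega)
    obtain ⟨l', w', hl', hd', ha', hw'⟩ := skip e hD _ (if b then v₁ else v₀) le_rfl
    have hpath : P.Path P.start (l ++ (e p, b) :: l') w' :=
      hl.append (.test w (e p) v₀ v₁ b l' w' hn hl')
    have hans : ans e (l ++ (e p, b) :: l') = σ ++ [b] := by
      rw [ans_append, ans_cons_real, ha, ha']
    refine ⟨l ++ (e p, b) :: l', w', hpath, ?_, hans, ?_⟩
    · intro q hq hq2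
      rcases List.mem_append.1 hq with hq | hq
      · exact hd q hq hq2
      · rcases List.mem_cons.1 hq with rfl | hq
        · exact ⟨p, rfl⟩
        · exact hd' q hq hq2
    · rcases hw' with ⟨b', hb'⟩ | hw'
      · refine absurd hb' (nonsink he hD hR hf hpath ?_ b')
        rw [hans, List.length_append, List.length_singleton]
        exact hσ
      · exact hw'

/-- the answer sequence of a set -/
def seqOf (k : ℕ) (A : Finset ℕ) : List Bool := (List.range k).map (fun i => decide (i ∈ A))

theorem seqOf_length (k : ℕ) (A : Finset ℕ) : (seqOf k A).length = k := by simp [seqOf]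

theorem seqOf_count {k : ℕ} {A : Finset ℕ} (hA : A ⊆ Finset.range k) :
    (seqOf k A).count true = A.card := by
  have h1 : (seqOf k A).count true = ((Finset.range k).filter (fun i => i ∈ A)).card := by
    unfold seqOf
    rw [List.count_eq_countP, List.countP_map, List.countP_eq_length_filter]
    have h2 : ((Finset.range k).filter (fun i => i ∈ A)).card =
        ((List.range k).filter (fun i => decide (i ∈ A))).length := rfl
    rw [h2]
    congr 2
    funext i
    simp
  rw [h1]
  congr 1
  ext i
  rw [Finset.mem_filter]
  exact ⟨fun h => h.2, fun h => ⟨hA h, h⟩⟩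

theorem seqOf_inj {k : ℕ} {A B : Finset ℕ} (hA : A ⊆ Finset.range k) (hB : B ⊆ Finset.range k)
    (h : seqOf k A = seqOf k B) : A = B := by
  unfold seqOf at h
  rw [List.map_inj_left] at h
  ext i
  constructor
  · intro hi
    have h1 := h i (List.mem_range.2 (Finset.mem_range.1 (hA hi)))
    simpa [hi] using h1
  · intro hi
    have h1 := h i (List.mem_range.2 (Finset.mem_range.1 (hB hi)))
    simpa [hi] using h1

/-- the counting bound -/
theorem count_bound {P : BP n} {e : Fin m × Fin m → Fin n} (he : Function.Injective e)
    (hD : P.Det) (hR : P.ReadOnce) (hf : P.Computes (Zf e)) (k s : ℕ) (hk : 2 * k + 2 ≤ m)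
    (hs : s ≤ k) : k.choose s ≤ (s * s).choose s * P.size := by
  classical
  let _ := P.fin
  have hlt : ∀ A : Finset ℕ, (seqOf k A).length < m := by
    intro A
    rw [seqOf_length]
    omega
  choose l w hpath hdum hans _ using fun A : Finset ℕ =>
    realize he hD hR hf (seqOf k A) (hlt A)
  set 𝒜 := (Finset.range k).powersetCard s with h𝒜
  have hsub : ∀ A ∈ 𝒜, A ⊆ Finset.range k := fun A hA => (Finset.mem_powersetCard.1 hA).1
  have hcard : ∀ A ∈ 𝒜, A.card = s := fun A hA => (Finset.mem_powersetCard.1 hA).2
  have htst : ∀ A, (tst e (l A)).card = k := by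
    intro A
    rw [card_tst he (hR _ _ (hpath A)), hans, seqOf_length]
  have hone : ∀ A ∈ 𝒜, (one e (l A)).card = s := by
    intro A hA
    rw [card_one he (hR _ _ (hpath A)), hans, seqOf_count (hsub A hA), hcard A hA]
  have hinj : ∀ A ∈ 𝒜, ∀ B ∈ 𝒜, one e (l A) = one e (l B) → A = B := by
    intro A hA B hB h
    refine seqOf_inj (hsub A hA) (hsub B hB) ?_
    rw [← hans A, ← hans B]
    refine ans_inj hD (hpath A) (hpath B) (hR _ _ (hpath A)) (hR _ _ (hpath B)) ?_ ?_
    · intro i
      constructor
      · intro hi
        obtain ⟨p, hp⟩ := hdum A _ hi rfl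
        have hp' : e p = i := hp
        subst hp'
        rw [← mem_one] at hi ⊢
        rw [← h]
        exact hi
      · intro hi
        obtain ⟨p, hp⟩ := hdum B _ hi rfl
        have hp' : e p = i := hp
        subst hp'
        rw [← mem_one] at hi ⊢
        rw [h]
        exact hi
    · rw [hans, hans, seqOf_length, seqOf_length]
  have hmerge : ∀ A ∈ 𝒜, ∀ B ∈ 𝒜, w A = w B →
      (one e (l A)).image Prod.fst ⊆ (one e (l B)).image Prod.fst ∧
      (one e (l A)).image Prod.snd ⊆ (one e (l B)).image Prod.snd := by
    intro A hA B hB h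
    have hB' : P.Path P.start (l B) (w A) := by
      rw [h]
      exact hpath B
    have h1 : (tst e (l A) ∪ tst e (l B)).card + 2 ≤ m := by
      have := Finset.card_union_le (tst e (l A)) (tst e (l B))
      rw [htst A, htst B] at this
      omega
    have h2 : (one e (l A)).card + (one e (l B)).card < m := by
      rw [hone A hA, hone B hB]
      omega
    exact ⟨merge_row he hD hR hf (hpath A) hB' h1 h2, merge_col he hD hR hf (hpath A) hB' h1 h2⟩
  have hfib : ∀ v ∈ 𝒜.image w, (𝒜.filter (fun A => w A = v)).card ≤ (s * s).choose s := by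
    intro v hv
    obtain ⟨B, hB, rfl⟩ := Finset.mem_image.1 hv
    set R := (one e (l B)).image Prod.fst with hRdef
    set C := (one e (l B)).image Prod.snd with hCdef
    have hRC : (R ×ˢ C).card ≤ s * s := by
      rw [Finset.card_product]
      refine Nat.mul_le_mul ?_ ?_
      · exact Finset.card_image_le.trans (hone B hB).le
      · exact Finset.card_image_le.trans (hone B hB).le
    refine le_trans ?_ (Nat.choose_le_choose s hRC)
    rw [← Finset.card_powersetCard]
    refine Finset.card_le_card_of_injOn (fun A => one e (l A)) ?_ ?_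
    · intro A hA
      rw [Finset.mem_coe, Finset.mem_filter] at hA
      rw [Finset.mem_coe, Finset.mem_powersetCard]
      refine ⟨?_, hone A hA.1⟩
      intro p hp
      obtain ⟨h1, h2⟩ := hmerge A hA.1 B hB hA.2
      rw [Finset.mem_product]
      exact ⟨h1 (Finset.mem_image_of_mem _ hp), h2 (Finset.mem_image_of_mem _ hp)⟩
    · intro A hA A' hA' h
      rw [Finset.mem_coe, Finset.mem_filter] at hA hA'
      exact hinj A hA.1 A' hA'.1 h
  have h1 := Finset.card_le_mul_card_image 𝒜 _ hfib
  rw [h𝒜, Finset.card_powersetCard, Finset.card_range] at h1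
  refine h1.trans (Nat.mul_le_mul le_rfl ?_)
  exact Finset.card_le_univ _

theorem two_pow_desc (N k : ℕ) : 2 ^ k * N.descFactorial k ≤ (2 * N).descFactorial k := by
  induction k with
  | zero => simp
  | succ k ih =>
    rw [Nat.descFactorial_succ, Nat.descFactorial_succ, pow_succ]
    calc 2 ^ k * 2 * ((N - k) * N.descFactorial k)
        = (2 * (N - k)) * (2 ^ k * N.descFactorial k) := by ring
      _ ≤ (2 * N - k) * (2 * N).descFactorial k := Nat.mul_le_mul (by omega) ih

theorem two_pow_choose (N k : ℕ) : 2 ^ k * N.choose k ≤ (2 * N).choose k := by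
  have h := two_pow_desc N k
  rw [Nat.descFactorial_eq_factorial_mul_choose, Nat.descFactorial_eq_factorial_mul_choose] at h
  have h2 : k.factorial * (2 ^ k * N.choose k) ≤ k.factorial * (2 * N).choose k := by
    calc k.factorial * (2 ^ k * N.choose k) = 2 ^ k * (k.factorial * N.choose k) := by ring
      _ ≤ _ := h
  exact Nat.le_of_mul_le_mul_left h2 (Nat.factorial_pos k)

/-- deterministic read-once branching programs for `Zf` are large -/
theorem lower {P : BP n} {e : Fin m × Fin m → Fin n} (he : Function.Injective e)
    (hD : P.Det) (hR : P.ReadOnce) (hf : P.Computes (Zf e)) (s : ℕ) (hm : 4 * (s * s) + 2 ≤ m) :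
    2 ^ s ≤ P.size := by
  rcases Nat.eq_zero_or_pos s with rfl | hs
  · have hne : 0 < @Fintype.card P.V P.fin := by
      let _ := P.fin
      exact Fintype.card_pos_iff.2 ⟨P.start⟩
    rw [pow_zero]
    exact hne
  have hss : s ≤ s * s := Nat.le_mul_of_pos_left s hs
  have h1 := count_bound he hD hR hf (2 * (s * s)) s (by omega) (by omega)
  have h2 := two_pow_choose (s * s) s
  have h3 : 0 < (s * s).choose s := Nat.choose_pos hss
  have h4 : (s * s).choose s * 2 ^ s ≤ (s * s).choose s * P.size := by
    calc (s * s).choose s * 2 ^ s = 2 ^ s * (s * s).choose s := by ring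
      _ ≤ (2 * (s * s)).choose s := h2
      _ ≤ _ := h1
  exact Nat.le_of_mul_le_mul_left h4 h3

end count

end Pool.Agent.W2helper60.RO
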