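import Pool.Agent.W2helper60.RO.Upper

/-!
# The separation
-/

set_option autoImplicit false

namespace Pool.Agent.W2helper60.RO

open Filter

/-- position of a matrix entry -/
def ent (n : ℕ) (p : Fin (Nat.sqrt n) × Fin (Nat.sqrt n)) : Fin n :=
  ⟨p.1.val * Nat.sqrt n + p.2.val, by
    have h1 := p.1.2
    have h2 := p.2.2
    have h3 : (p.1.val + 1) * Nat.sqrt n ≤ Nat.sqrt n * Nat.sqrt n :=
      Nat.mul_le_mul_right _ h1
    have h4 := Nat.sqrt_le n
    rw [Nat.add_mul, Nat.one_mul] at h3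
    omega⟩

theorem ent_inj (n : ℕ) : Function.Injective (ent n) := by
  rintro ⟨i, j⟩ ⟨i', j'⟩ h
  have h1 : i.val * Nat.sqrt n + j.val = i'.val * Nat.sqrt n + j'.val := Fin.mk.inj h
  have hj := j.2
  have hj' := j'.2
  have h2 : i.val = i'.val := by
    rcases Nat.lt_trichotomy i.val i'.val with h | h | h
    · exfalso
      have h3 : (i.val + 1) * Nat.sqrt n ≤ i'.val * Nat.sqrt n := Nat.mul_le_mul_right _ h
      rw [Nat.add_mul, Nat.one_mul] at h3
      omega
    · exact h
    · exfalso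
      have h3 : (i'.val + 1) * Nat.sqrt n ≤ i.val * Nat.sqrt n := Nat.mul_le_mul_right _ h
      rw [Nat.add_mul, Nat.one_mul] at h3
      omega
  have h3 : j.val = j'.val := by
    rw [h2] at h1
    omega
  rw [Fin.ext h2, Fin.ext h3]

/-- the variables of a term -/
def termSet (n : ℕ) (p : Fin (Nat.sqrt n) × Fin (Nat.sqrt n)) : Finset (Fin n) :=
  (Finset.univ.image fun j => ent n (p.1, j)) ∪ (Finset.univ.image fun i => ent n (i, p.2))

theorem term_iff (n : ℕ) (x : Fin n → Bool) :
    Zf (ent n) x = true ↔ ∃ p, ∀ v ∈ termSet n p, x v = false := by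
  rw [Zf_iff]
  constructor
  · rintro ⟨⟨i, hi⟩, ⟨j, hj⟩⟩
    refine ⟨(i, j), fun v hv => ?_⟩
    rcases Finset.mem_union.1 hv with hv | hv
    · obtain ⟨j', -, rfl⟩ := Finset.mem_image.1 hv
      exact hi j'
    · obtain ⟨i', -, rfl⟩ := Finset.mem_image.1 hv
      exact hj i'
  · rintro ⟨⟨i, j⟩, h⟩
    refine ⟨⟨i, fun j' => ?_⟩, ⟨j, fun i' => ?_⟩⟩
    · exact h _ (Finset.mem_union_left _ (Finset.mem_image_of_mem _ (Finset.mem_univ j')))
    · exact h _ (Finset.mem_union_right _ (Finset.mem_image_of_mem _ (Finset.mem_univ i')))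

theorem card_pairs (n : ℕ) :
    Fintype.card (Fin (Nat.sqrt n) × Fin (Nat.sqrt n)) ≤ n := by
  rw [Fintype.card_prod, Fintype.card_fin]
  exact Nat.sqrt_le n

theorem card_termSet (n : ℕ) (p : Fin (Nat.sqrt n) × Fin (Nat.sqrt n)) :
    (termSet n p).card ≤ n := by
  have h := Finset.card_le_univ (termSet n p)
  rwa [Fintype.card_fin] at h

/-! ### formulas -/

theorem sum_map_le {α : Type} (l : List α) (f : α → ℕ) (c : ℕ) (h : ∀ a ∈ l, f a ≤ c) :
    (l.map f).sum ≤ l.length * c := by
  induction l with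
  | nil => simp
  | cons a l ih =>
    rw [List.map_cons, List.sum_cons, List.length_cons, Nat.add_mul, Nat.one_mul, Nat.add_comm]
    exact Nat.add_le_add (ih fun b hb => h b (List.mem_cons_of_mem _ hb))
      (h a List.mem_cons_self)

/-- the DNF -/
noncomputable def dnf (n : ℕ) : Lay n 2 :=
  (Finset.univ : Finset (Fin (Nat.sqrt n) × Fin (Nat.sqrt n))).toList.map
    (fun p => ((termSet n p).toList.map (fun v => ((v, false) : Fin n × Bool)) : List (Fin n × Bool)))

theorem dnf_length (n : ℕ) : List.length (dnf n) ≤ n := by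
  refine (List.length_map _).le.trans ?_
  rw [Finset.length_toList, Finset.card_univ]
  exact card_pairs n

theorem dnf_eval (n : ℕ) (x : Fin n → Bool) : Zf (ent n) x = (dnf n).eval x 2 true := by
  rw [Bool.eq_iff_iff, term_iff]
  have h1 : (dnf n).eval x 2 true =
      List.any (dnf n) (fun C => List.all C (fun p => x p.1 == p.2)) := rfl
  rw [h1, List.any_eq_true]
  constructor
  · rintro ⟨p, hp⟩
    refine ⟨_, List.mem_map.2 ⟨p, Finset.mem_toList.2 (Finset.mem_univ p), rfl⟩, ?_⟩
    rw [List.all_eq_true]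
    intro q hq
    obtain ⟨v, hv, rfl⟩ := List.mem_map.1 hq
    rw [hp v (Finset.mem_toList.1 hv)]
    rfl
  · rintro ⟨C, hC, hC2⟩
    obtain ⟨p, -, rfl⟩ := List.mem_map.1 hC
    refine ⟨p, fun v hv => ?_⟩
    rw [List.all_eq_true] at hC2
    have h2 := hC2 (v, false) (List.mem_map.2 ⟨v, Finset.mem_toList.2 hv, rfl⟩)
    exact beq_iff_eq.1 h2

theorem dnf_size (n : ℕ) : (dnf n).size 2 ≤ 1 + n * (1 + n) := by
  have h1 : (dnf n).size 2 = 1 + (List.map (fun C => Lay.size 1 C) (dnf n)).sum := rfl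
  rw [h1]
  refine Nat.add_le_add_left ?_ 1
  refine (sum_map_le (dnf n) _ (1 + n) ?_).trans (Nat.mul_le_mul_right _ ?_)
  · intro C hC
    obtain ⟨p, -, rfl⟩ := List.mem_map.1 hC
    have h2 : Lay.size 1 ((termSet n p).toList.map (fun v => ((v, false) : Fin n × Bool)) :
        List (Fin n × Bool)) = 1 + (List.map (fun _ => 1)
          ((termSet n p).toList.map (fun v => ((v, false) : Fin n × Bool)))).sum := rfl
    rw [h2]
    refine Nat.add_le_add_left ?_ 1
    refine (sum_map_le _ _ 1 (fun _ _ => le_rfl)).trans ?_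
    rw [Nat.mul_one, List.length_map, Finset.length_toList]
    exact card_termSet n p
  · exact dnf_length n

/-- the DNF as a formula of depth three with top gate OR -/
noncomputable def dnf3 (n : ℕ) : Lay n 3 :=
  List.map (fun C : List (Fin n × Bool) =>
    (C.map (fun q => ([q] : List (Fin n × Bool))) : List (List (Fin n × Bool))))
    (dnf n : List (List (Fin n × Bool)))

theorem all_single {α : Type} (f : α → Bool) (C : List α) :
    List.all C f = List.all (C.map (fun q => [q])) (fun D => List.any D f) := by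
  rw [List.all_map]
  congr 1
  funext q
  simp

theorem dnf3_eval (n : ℕ) (x : Fin n → Bool) : Zf (ent n) x = (dnf3 n).eval x 3 true := by
  rw [dnf_eval]
  have h1 : (dnf n).eval x 2 true =
      List.any (dnf n) (fun C => List.all C (fun p => x p.1 == p.2)) := rfl
  have h2 : (dnf3 n).eval x 3 true = List.any (dnf3 n) (fun D => List.all D (fun C =>
      List.any C (fun p => x p.1 == p.2))) := rfl
  rw [h1, h2]
  unfold dnf3
  rw [List.any_map]
  congr 1
  funext C
  exact all_single (α := Fin n × Bool) (fun p => x p.1 == p.2) C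

theorem dnf3_size (n : ℕ) : (dnf3 n).size 3 ≤ 1 + n * (1 + n * 2) := by
  have h1 : (dnf3 n).size 3 = 1 + (List.map (fun D => Lay.size 2 D) (dnf3 n)).sum := rfl
  rw [h1]
  refine Nat.add_le_add_left ?_ 1
  refine (sum_map_le (dnf3 n) _ (1 + n * 2) ?_).trans (Nat.mul_le_mul_right _ ?_)
  · intro D hD
    obtain ⟨C, hC, rfl⟩ := List.mem_map.1 hD
    obtain ⟨p, -, rfl⟩ := List.mem_map.1 hC
    set C : List (Fin n × Bool) := (termSet n p).toList.map (fun v => ((v, false) : Fin n × Bool))
      with hCdef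
    have h2 : Lay.size 2 (C.map (fun q => ([q] : List (Fin n × Bool))) :
        List (List (Fin n × Bool))) = 1 + (List.map (fun E => Lay.size 1 E)
          (C.map (fun q => ([q] : List (Fin n × Bool))))).sum := rfl
    rw [h2]
    refine Nat.add_le_add_left ?_ 1
    refine (sum_map_le _ _ 2 ?_).trans ?_
    · intro E hE
      obtain ⟨q, -, rfl⟩ := List.mem_map.1 hE
      exact le_rfl
    · rw [List.length_map, hCdef, List.length_map, Finset.length_toList]
      exact Nat.mul_le_mul_right _ (card_termSet n p)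
  · exact (List.length_map _).le.trans (dnf_length n)

theorem depth_two : PolyDepth 2 true (fun n => Zf (ent n)) := by
  refine ⟨1 + Polynomial.X * (1 + Polynomial.X), fun n => ⟨dnf n, ?_, dnf_eval n⟩⟩
  have h := dnf_size n
  simpa using h

theorem depth_three_true : PolyDepth 3 true (fun n => Zf (ent n)) := by
  refine ⟨1 + Polynomial.X * (1 + Polynomial.X * 2), fun n => ⟨dnf3 n, ?_, dnf3_eval n⟩⟩
  have h := dnf3_size n
  simpa using h

theorem depth_three_false : PolyDepth 3 false (fun n => Zf (ent n)) := by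
  refine ⟨2 + Polynomial.X * (1 + Polynomial.X), fun n => ⟨([dnf n] : List (Lay n 2)), ?_, ?_⟩⟩
  · have h := dnf_size n
    have h1 : Lay.size 3 ([dnf n] : List (Lay n 2)) = 1 + (Lay.size 2 (dnf n) + 0) := rfl
    rw [h1]
    have h2 : (2 + Polynomial.X * (1 + Polynomial.X) : Polynomial ℕ).eval n =
        2 + n * (1 + n) := by simp
    rw [h2]
    omega
  · intro x
    have h1 : Lay.eval x 3 false ([dnf n] : List (Lay n 2)) =
        (Lay.eval x 2 true (dnf n) && true) := rfl
    rw [h1, Bool.and_true]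
    exact dnf_eval n x

/-! ### programs -/

theorem nro_pos : PolyNRO (fun n => Zf (ent n)) := by
  refine ⟨1 + Polynomial.X * ((Polynomial.X + 1) * 2), fun n => ?_⟩
  refine ⟨orBP (A := Fin (Nat.sqrt n) × Fin (Nat.sqrt n)) (fun p => grid (termSet n p).card 1
    (fun t => ((termSet n p).equivFin.symm t.1).val) false), ?_, ?_, ?_⟩
  · refine orBP_readOnce _ (fun p => grid_readOnce _ _ _ ?_ _)
    rintro ⟨t, u⟩ ⟨t', u'⟩ h
    have h1 : t = t' := (termSet n p).equivFin.symm.injective (Subtype.ext h)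
    rw [h1, Subsingleton.elim u u']
  · intro x
    rw [orBP_acc, term_iff]
    refine exists_congr fun p => ?_
    rw [grid_acc]
    constructor
    · intro h t
      exact ⟨0, h _ ((termSet n p).equivFin.symm t).2⟩
    · intro h v hv
      obtain ⟨u, hu⟩ := h ((termSet n p).equivFin ⟨v, hv⟩)
      simp only [Equiv.symm_apply_apply] at hu
      exact hu
  · rw [orBP_size]
    have h1 : ∀ p ∈ (Finset.univ : Finset (Fin (Nat.sqrt n) × Fin (Nat.sqrt n))),
        (grid (termSet n p).card 1 (fun t => ((termSet n p).equivFin.symm t.1).val) false).size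
          ≤ (n + 1) * 2 := by
      intro p _
      rw [grid_size]
      exact Nat.mul_le_mul_right _ (Nat.succ_le_succ (card_termSet n p))
    have h2 := Finset.sum_le_card_nsmul _ _ _ h1
    rw [smul_eq_mul, Finset.card_univ] at h2
    have h3 : (1 + Polynomial.X * ((Polynomial.X + 1) * 2) : Polynomial ℕ).eval n =
        1 + n * ((n + 1) * 2) := by simp
    rw [h3, Nat.add_comm 1]
    exact Nat.succ_le_succ (h2.trans (Nat.mul_le_mul_right _ (card_pairs n)))

theorem nro_neg : PolyNRO (fun n x => !(Zf (ent n) x)) := by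
  refine ⟨1 + 2 * ((Polynomial.X + 1) * (Polynomial.X + 1)), fun n => ?_⟩
  refine ⟨orBP (A := Bool) (fun b => grid (Nat.sqrt n) (Nat.sqrt n)
    (ent n ∘ (if b then id else Prod.swap)) true), ?_, ?_, ?_⟩
  · refine orBP_readOnce _ (fun b => grid_readOnce _ _ _ ?_ _)
    refine (ent_inj n).comp ?_
    cases b
    · exact Prod.swap_injective
    · exact Function.injective_id
  · intro x
    rw [orBP_acc, Bool.exists_bool, grid_acc, grid_acc]
    have h1 : (!(Zf (ent n) x)) = true ↔ ¬ (Zf (ent n) x = true) := by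
      cases Zf (ent n) x <;> simp
    rw [h1, Zf_iff, not_and_or]
    push Not
    simp only [ne_eq, Bool.not_eq_false]
    constructor
    · rintro (h | h)
      · exact Or.inr h
      · exact Or.inl h
    · rintro (h | h)
      · exact Or.inr h
      · exact Or.inl h
  · rw [orBP_size]
    have h1 : ∀ b ∈ (Finset.univ : Finset Bool),
        (grid (Nat.sqrt n) (Nat.sqrt n) (ent n ∘ (if b then id else Prod.swap)) true).size
          ≤ (n + 1) * (n + 1) := by
      intro b _
      rw [grid_size]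
      exact Nat.mul_le_mul (Nat.succ_le_succ (Nat.sqrt_le_self n))
        (Nat.succ_le_succ (Nat.sqrt_le_self n))
    have h2 := Finset.sum_le_card_nsmul _ _ _ h1
    rw [smul_eq_mul, Finset.card_univ, Fintype.card_bool] at h2
    have h3 : (1 + 2 * ((Polynomial.X + 1) * (Polynomial.X + 1)) : Polynomial ℕ).eval n =
        1 + 2 * ((n + 1) * (n + 1)) := by simp
    rw [h3, Nat.add_comm 1]
    exact Nat.succ_le_succ h2

/-! ### the lower bound -/

theorem lower_ent (n s : ℕ) (hn : (4 * s ^ 2 + 2) ^ 2 ≤ n) (P : BP n) (hD : P.Det)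
    (hR : P.ReadOnce) (hf : P.Computes (Zf (ent n))) : 2 ^ s ≤ P.size := by
  refine lower (ent_inj n) hD hR hf s ?_
  rw [Nat.le_sqrt]
  calc (4 * (s * s) + 2) * (4 * (s * s) + 2) = (4 * s ^ 2 + 2) ^ 2 := by ring
    _ ≤ n := hn

theorem eventually_small (c : ℕ) : ∀ᶠ n : ℕ in atTop,
    1 ≤ Real.logb 2 n ∧ 576 * (Real.logb 2 n) ^ (4 * c) ≤ (n : ℝ) := by
  have hlog2 : 0 < Real.log 2 := Real.log_pos (by norm_num)
  have hε : 0 < (Real.log 2) ^ (4 * c) / 576 := by positivity
  have h1 := (Real.isLittleO_pow_log_id_atTop (n := 4 * c)).comp_tendsto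
    (tendsto_natCast_atTop_atTop (R := ℝ))
  have h2 := h1.def hε
  filter_upwards [h2, eventually_ge_atTop 2] with n hn hn2
  have hn2' : (2 : ℝ) ≤ n := by exact_mod_cast hn2
  refine ⟨?_, ?_⟩
  · rw [Real.le_logb_iff_rpow_le (by norm_num) (by linarith), Real.rpow_one]
    exact hn2'
  · simp only [Function.comp_apply, id] at hn
    have hlogn : 0 ≤ Real.log n := Real.log_nonneg (by linarith)
    rw [Real.norm_of_nonneg (by positivity), Real.norm_of_nonneg (by positivity)] at hn
    unfold Real.logb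
    rw [div_pow]
    have h3 : 0 < (Real.log 2) ^ (4 * c) := by positivity
    rw [← mul_div_assoc, div_le_iff₀ h3]
    calc 576 * Real.log n ^ (4 * c) ≤ 576 * (Real.log 2 ^ (4 * c) / 576 * n) := by
          exact mul_le_mul_of_nonneg_left hn (by norm_num)
      _ = n * Real.log 2 ^ (4 * c) := by ring

theorem quasi (c : ℕ) : ∀ᶠ n : ℕ in atTop, ∀ P : BP n, P.Det → P.ReadOnce →
    P.Computes (Zf (ent n)) → (2 : ℝ) ^ ((Real.logb 2 n) ^ c) < (P.size : ℝ) := by
  filter_upwards [eventually_small c] with n hn P hD hR hf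
  obtain ⟨h1, h2⟩ := hn
  set t : ℝ := (Real.logb 2 n) ^ c with ht
  have ht1 : 1 ≤ t := one_le_pow₀ h1
  set s : ℕ := ⌊t⌋₊ + 1 with hs
  have hts : t < s := by
    rw [hs]
    push_cast
    exact Nat.lt_floor_add_one t
  have hst : (s : ℝ) ≤ 2 * t := by
    rw [hs]
    push_cast
    have := Nat.floor_le (show 0 ≤ t by linarith)
    linarith
  have hs1 : (1 : ℝ) ≤ s := by
    rw [hs]
    push_cast
    have : (0 : ℝ) ≤ ⌊t⌋₊ := Nat.cast_nonneg _
    linarith
  have hsn : (4 * s ^ 2 + 2) ^ 2 ≤ n := by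
    have h3 : (((4 * s ^ 2 + 2) ^ 2 : ℕ) : ℝ) ≤ (n : ℝ) := by
      push_cast
      have h4 : (4 * (s : ℝ) ^ 2 + 2) ≤ 6 * (s : ℝ) ^ 2 := by nlinarith
      have h5 : (s : ℝ) ^ 2 ≤ (2 * t) ^ 2 := by
        exact pow_le_pow_left₀ (by linarith) hst 2
      have h6 : 6 * (s : ℝ) ^ 2 ≤ 24 * t ^ 2 := by nlinarith
      calc (4 * (s : ℝ) ^ 2 + 2) ^ 2 ≤ (24 * t ^ 2) ^ 2 :=
            pow_le_pow_left₀ (by positivity) (h4.trans h6) 2
        _ = 576 * t ^ 4 := by ring
        _ = 576 * (Real.logb 2 n) ^ (4 * c) := by rw [ht, ← pow_mul, Nat.mul_comm]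
        _ ≤ n := h2
    exact_mod_cast h3
  have h7 := lower_ent n s hsn P hD hR hf
  calc (2 : ℝ) ^ t < (2 : ℝ) ^ (s : ℝ) := Real.rpow_lt_rpow_of_exponent_lt (by norm_num) hts
    _ = ((2 ^ s : ℕ) : ℝ) := by
      rw [Real.rpow_natCast]
      push_cast
      rfl
    _ ≤ P.size := by exact_mod_cast h7

end Pool.Agent.W2helper60.RO
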