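import Pool.Agent.W2helper60.RO.Lower2

/-!
# Read-once programs: upper bounds

Grid programs (every row contains an entry equal to `c`) and the nondeterministic disjunction of
programs.
-/

set_option autoImplicit false

namespace Pool.Agent.W2helper60.RO

variable {N : ℕ}

/-- renaming the successors of a node -/
def Node.map {V W : Type} (g : V → W) : Node N V → Node N W
  | .sink b => .sink b
  | .test i v₀ v₁ => .test i (g v₀) (g v₁)
  | .guess S => .guess (g '' S)

namespace BP

variable {P : BP N}

/-- acceptance from a node -/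
def Acc (P : BP N) (v : P.V) (x : Fin N → Bool) : Prop :=
  ∃ l w, P.Path v l w ∧ P.node w = .sink true ∧ ∀ p ∈ l, x p.1 = p.2

theorem acc_sink {v : P.V} {b : Bool} (h : P.node v = .sink b) (x : Fin N → Bool) :
    P.Acc v x ↔ b = true := by
  constructor
  · rintro ⟨l, w, hp, hw, -⟩
    cases hp with
    | nil _ =>
      rw [h] at hw
      injection hw
    | test _ _ _ _ _ _ _ hn _ =>
      rw [h] at hn
      cases hn
    | guess _ _ _ _ _ hn _ _ =>
      rw [h] at hn
      cases hn
  · rintro rfl
    exact ⟨[], v, .nil v, h, by simp⟩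

theorem acc_test {v : P.V} {i : Fin N} {v₀ v₁ : P.V} (h : P.node v = .test i v₀ v₁)
    (x : Fin N → Bool) : P.Acc v x ↔ P.Acc (if x i then v₁ else v₀) x := by
  constructor
  · rintro ⟨l, w, hp, hw, hc⟩
    cases hp with
    | nil _ =>
      rw [h] at hw
      cases hw
    | test _ i' v₀' v₁' b l' _ hn hp' =>
      rw [h] at hn
      cases hn
      have h1 : x i = b := hc (i, b) List.mem_cons_self
      rw [h1]
      exact ⟨l', w, hp', hw, fun p hp => hc p (List.mem_cons_of_mem _ hp)⟩
    | guess _ _ _ _ _ hn _ _ =>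
      rw [h] at hn
      cases hn
  · rintro ⟨l, w, hp, hw, hc⟩
    refine ⟨(i, x i) :: l, w, .test v i v₀ v₁ (x i) l w h hp, hw, ?_⟩
    intro p hp
    rcases List.mem_cons.1 hp with rfl | hp
    · rfl
    · exact hc p hp

theorem acc_guess {v : P.V} {S : Set P.V} (h : P.node v = .guess S) (x : Fin N → Bool) :
    P.Acc v x ↔ ∃ u ∈ S, P.Acc u x := by
  constructor
  · rintro ⟨l, w, hp, hw, hc⟩
    cases hp with
    | nil _ =>
      rw [h] at hw
      cases hw
    | test _ _ _ _ _ _ _ hn _ =>
      rw [h] at hn
      cases hn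
    | guess _ S' u _ _ hn hu hp' =>
      rw [h] at hn
      cases hn
      exact ⟨u, hu, l, w, hp', hw, hc⟩
  · rintro ⟨u, hu, l, w, hp, hw, hc⟩
    exact ⟨l, w, .guess v S u l w h hu hp, hw, hc⟩

/-- if equal variables are tested only at equal ranks then the program is read-once -/
theorem nodup_of_rank
    (hP : ∀ v v' i v₀ v₁ v₀' v₁', P.node v = .test i v₀ v₁ → P.node v' = .test i v₀' v₁' →
      P.rank v = P.rank v') {u w : P.V} {l : List (Fin N × Bool)} (h : P.Path u l w) :
    (l.map Prod.fst).Nodup ∧
      ∀ i ∈ l.map Prod.fst, ∃ v v₀ v₁, P.node v = .test i v₀ v₁ ∧ P.rank v ≤ P.rank u := by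
  induction h with
  | nil v => simp
  | guess v S u l w hn hu _ ih =>
    refine ⟨ih.1, fun i hi => ?_⟩
    obtain ⟨v', v₀, v₁, h1, h2⟩ := ih.2 i hi
    exact ⟨v', v₀, v₁, h1, h2.trans (P.rank_guess v S hn u hu).le⟩
  | test v i v₀ v₁ b l w hn _ ih =>
    have hlt : P.rank (if b then v₁ else v₀) < P.rank v := by
      have := P.rank_test v i v₀ v₁ hn
      cases b
      · exact this.1
      · exact this.2
    refine ⟨?_, ?_⟩
    · rw [List.map_cons, List.nodup_cons]
      refine ⟨fun hi => ?_, ih.1⟩
      obtain ⟨v', v₀', v₁', h1, h2⟩ := ih.2 i hi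
      have h3 := hP v v' i _ _ _ _ hn h1
      omega
    · intro j hj
      rw [List.map_cons, List.mem_cons] at hj
      rcases hj with rfl | hj
      · exact ⟨v, v₀, v₁, hn, le_rfl⟩
      · obtain ⟨v', v₀', v₁', h1, h2⟩ := ih.2 j hj
        exact ⟨v', v₀', v₁', h1, h2.trans hlt.le⟩

/-! ### embedding of programs -/

theorem path_map {P Q : BP N} (g : P.V → Q.V) (hg : ∀ v, Q.node (g v) = (P.node v).map g)
    {u w : P.V} {l : List (Fin N × Bool)} (h : P.Path u l w) : Q.Path (g u) l (g w) := by
  induction h with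
  | nil v => exact .nil _
  | test v i v₀ v₁ b l w hn _ ih =>
    refine .test (g v) i (g v₀) (g v₁) b l (g w) ?_ ?_
    · rw [hg, hn]
      rfl
    · cases b
      · exact ih
      · exact ih
  | guess v S u l w hn hu _ ih =>
    refine .guess (g v) (g '' S) (g u) l (g w) ?_ (Set.mem_image_of_mem g hu) ih
    rw [hg, hn]
    rfl

theorem path_unmap {P Q : BP N} (g : P.V → Q.V) (hg : ∀ v, Q.node (g v) = (P.node v).map g)
    {u' w' : Q.V} {l : List (Fin N × Bool)} (h : Q.Path u' l w') :
    ∀ u, u' = g u → ∃ w, w' = g w ∧ P.Path u l w := by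
  induction h with
  | nil v =>
    intro u hu
    exact ⟨u, hu, .nil u⟩
  | test v i v₀ v₁ b l w hn _ ih =>
    intro u hu
    subst hu
    rw [hg] at hn
    rcases hu' : P.node u with c | ⟨i', u₀, u₁⟩ | S
    · rw [hu'] at hn
      cases hn
    · rw [hu'] at hn
      simp only [Node.map] at hn
      injection hn with h1 h2 h3
      subst h1 h2 h3
      obtain ⟨w', hw, hw'⟩ := ih (if b then u₁ else u₀) (by cases b <;> rfl)
      exact ⟨w', hw, .test u i' u₀ u₁ b l w' hu' hw'⟩
    · rw [hu'] at hn
      cases hn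
  | guess v S u'' l w hn hS _ ih =>
    intro u hu
    subst hu
    rw [hg] at hn
    rcases hu' : P.node u with c | ⟨i', u₀, u₁⟩ | S'
    · rw [hu'] at hn
      cases hn
    · rw [hu'] at hn
      cases hn
    · rw [hu'] at hn
      simp only [Node.map] at hn
      injection hn with h1
      subst h1
      obtain ⟨t, ht, rfl⟩ := hS
      obtain ⟨w', hw, hw'⟩ := ih t rfl
      exact ⟨w', hw, .guess u S' t l w' hu' ht hw'⟩

end BP

/-! ### the disjunction -/

/-- the nondeterministic disjunction of a family of programs -/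
noncomputable def orBP {A : Type} [Fintype A] (P : A → BP N) : BP N where
  V := Option (Σ a, (P a).V)
  fin := by
    letI : ∀ a, Fintype (P a).V := fun a => (P a).fin
    exact inferInstance
  start := none
  node v := match v with
    | none => .guess {u | ∃ a, u = some ⟨a, (P a).start⟩}
    | some ⟨a, v⟩ => ((P a).node v).map (fun u => some ⟨a, u⟩)
  rank v := match v with
    | none => (∑ a, (P a).rank (P a).start) + 1
    | some ⟨a, v⟩ => (P a).rank v
  rank_test := by
    rintro (_ | ⟨a, v⟩) i v₀ v₁ h
    · cases h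
    · rcases hv : (P a).node v with c | ⟨i', u₀, u₁⟩ | S
      · simp only [hv] at h
        cases h
      · simp only [hv] at h
        simp only [Node.map] at h
        injection h with h1 h2 h3
        subst h1 h2 h3
        exact (P a).rank_test v i' u₀ u₁ hv
      · simp only [hv] at h
        cases h
  rank_guess := by
    rintro (_ | ⟨a, v⟩) S h u hu
    · simp only at h
      injection h with h1
      subst h1
      obtain ⟨a, rfl⟩ := hu
      have := Finset.single_le_sum (f := fun a => (P a).rank (P a).start)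
        (fun _ _ => Nat.zero_le _) (Finset.mem_univ a)
      exact Nat.lt_succ_of_le this
    · rcases hv : (P a).node v with c | ⟨i', u₀, u₁⟩ | S'
      · simp only [hv] at h
        cases h
      · simp only [hv] at h
        cases h
      · simp only [hv] at h
        simp only [Node.map] at h
        injection h with h1
        subst h1
        obtain ⟨t, ht, rfl⟩ := hu
        exact (P a).rank_guess v S' hv t ht

theorem orBP_size {A : Type} [Fintype A] (P : A → BP N) :
    (orBP P).size = (∑ a, (P a).size) + 1 := by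
  classical
  let _ : ∀ a, Fintype (P a).V := fun a => (P a).fin
  have h1 : (orBP P).size = Fintype.card (Option (Σ a, (P a).V)) := by
    unfold BP.size
    congr 1
  rw [h1, Fintype.card_option, Fintype.card_sigma]
  rfl

theorem orBP_readOnce {A : Type} [Fintype A] (P : A → BP N) (hP : ∀ a, (P a).ReadOnce) :
    (orBP P).ReadOnce := by
  intro l w h
  cases h with
  | nil _ => simp
  | test _ i v₀ v₁ b l' _ hn _ => cases hn
  | guess _ S u _ _ hn hu hp =>
    injection hn with h1
    subst h1
    obtain ⟨a, rfl⟩ := hu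
    obtain ⟨w', -, hw'⟩ := BP.path_unmap (P := P a) (Q := orBP P)
      (fun u => (some ⟨a, u⟩ : Option (Σ a, (P a).V))) (fun v => rfl) hp (P a).start rfl
    exact hP a _ _ hw'

theorem orBP_acc {A : Type} [Fintype A] (P : A → BP N) (x : Fin N → Bool) :
    (orBP P).Accepts x ↔ ∃ a, (P a).Accepts x := by
  have h0 : (orBP P).Accepts x ↔ (orBP P).Acc (orBP P).start x := Iff.rfl
  have h1 := BP.acc_guess (P := orBP P) (v := (orBP P).start)
    (S := {u | ∃ a, u = some ⟨a, (P a).start⟩}) rfl x
  rw [h0, h1]
  constructor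
  · rintro ⟨u, ⟨a, rfl⟩, l, w, hp, hw, hc⟩
    obtain ⟨w', rfl, hw'⟩ := BP.path_unmap (P := P a) (Q := orBP P)
      (fun u => (some ⟨a, u⟩ : Option (Σ a, (P a).V))) (fun v => rfl) hp (P a).start rfl
    refine ⟨a, l, w', hw', ?_, hc⟩
    have h1 : ((P a).node w').map (fun u => (some ⟨a, u⟩ : Option (Σ a, (P a).V))) =
      .sink true := hw
    rcases hv : (P a).node w' with c | ⟨i', u₀, u₁⟩ | S'
    · rw [hv] at h1
      simp only [Node.map] at h1
      injection h1 with h2
      rw [h2]
    · rw [hv] at h1
      cases h1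
    · rw [hv] at h1
      cases h1
  · rintro ⟨a, l, w, hp, hw, hc⟩
    refine ⟨some ⟨a, (P a).start⟩, ⟨a, rfl⟩, l, some ⟨a, w⟩, ?_, ?_, hc⟩
    · exact BP.path_map (P := P a) (Q := orBP P)
        (fun u => (some ⟨a, u⟩ : Option (Σ a, (P a).V))) (fun v => rfl) hp
    · have h1 : (orBP P).node (some ⟨a, w⟩) =
        ((P a).node w).map (fun u => (some ⟨a, u⟩ : Option (Σ a, (P a).V))) := rfl
      rw [h1, hw]
      rfl

/-! ### grid programs -/

/-- the nodes of a grid program -/
def gridNode (a b : ℕ) (g : Fin a × Fin b → Fin N) (c : Bool) (v : Fin (a + 1) × Fin (b + 1)) :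
    Node N (Fin (a + 1) × Fin (b + 1)) :=
  if h : v.1.val < a then
    if h' : v.2.val < b then
      .test (g (⟨v.1.val, h⟩, ⟨v.2.val, h'⟩))
        (if c then (v.1, ⟨v.2.val + 1, Nat.succ_lt_succ h'⟩)
          else (⟨v.1.val + 1, Nat.succ_lt_succ h⟩, 0))
        (if c then (⟨v.1.val + 1, Nat.succ_lt_succ h⟩, 0)
          else (v.1, ⟨v.2.val + 1, Nat.succ_lt_succ h'⟩))
    else .sink false
  else .sink true

theorem gridNode_out {a b : ℕ} {g : Fin a × Fin b → Fin N} {c : Bool}
    {v : Fin (a + 1) × Fin (b + 1)} (h : ¬ v.1.val < a) : gridNode a b g c v = .sink true :=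
  dif_neg h

theorem gridNode_end {a b : ℕ} {g : Fin a × Fin b → Fin N} {c : Bool}
    {v : Fin (a + 1) × Fin (b + 1)} (h : v.1.val < a) (h' : ¬ v.2.val < b) :
    gridNode a b g c v = .sink false := by
  unfold gridNode
  rw [dif_pos h, dif_neg h']

theorem gridNode_in {a b : ℕ} {g : Fin a × Fin b → Fin N} {c : Bool}
    {v : Fin (a + 1) × Fin (b + 1)} (h : v.1.val < a) (h' : v.2.val < b) :
    gridNode a b g c v = .test (g (⟨v.1.val, h⟩, ⟨v.2.val, h'⟩))
        (if c then (v.1, ⟨v.2.val + 1, Nat.succ_lt_succ h'⟩)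
          else (⟨v.1.val + 1, Nat.succ_lt_succ h⟩, 0))
        (if c then (⟨v.1.val + 1, Nat.succ_lt_succ h⟩, 0)
          else (v.1, ⟨v.2.val + 1, Nat.succ_lt_succ h'⟩)) := by
  unfold gridNode
  rw [dif_pos h, dif_pos h']

/-- the rank of a node of a grid program -/
def gridRank (a b : ℕ) (v : Fin (a + 1) × Fin (b + 1)) : ℕ :=
  (a - v.1.val) * (b + 1) + (b - v.2.val)

theorem gridRank_right (a b i j : ℕ) (hj : j < b) :
    (a - i) * (b + 1) + (b - (j + 1)) < (a - i) * (b + 1) + (b - j) := by omega

theorem gridRank_down (a b i j : ℕ) (hi : i < a) (hj : j < b) :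
    (a - (i + 1)) * (b + 1) + (b - 0) < (a - i) * (b + 1) + (b - j) := by
  have h1 : a - i = (a - (i + 1)) + 1 := by omega
  rw [h1, Nat.add_mul, Nat.one_mul]
  omega

/-- the grid program: every row contains an entry equal to `c` -/
def grid (a b : ℕ) (g : Fin a × Fin b → Fin N) (c : Bool) : BP N where
  V := Fin (a + 1) × Fin (b + 1)
  fin := inferInstance
  start := (0, 0)
  node := gridNode a b g c
  rank := gridRank a b
  rank_test := by
    rintro ⟨i, j⟩ k v₀ v₁ h
    by_cases h1 : i.val < a
    · by_cases h2 : j.val < b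
      · rw [gridNode_in (v := (i, j)) h1 h2] at h
        injection h with h3 h4 h5
        subst h4 h5
        have hr := gridRank_right a b i.val j.val h2
        have hd := gridRank_down a b i.val j.val h1 h2
        cases c
        · exact ⟨hd, hr⟩
        · exact ⟨hr, hd⟩
      · rw [gridNode_end (v := (i, j)) h1 h2] at h
        cases h
    · rw [gridNode_out (v := (i, j)) h1] at h
      cases h
  rank_guess := by
    rintro ⟨i, j⟩ S h
    by_cases h1 : i.val < a
    · by_cases h2 : j.val < b
      · rw [gridNode_in (v := (i, j)) h1 h2] at h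
        cases h
      · rw [gridNode_end (v := (i, j)) h1 h2] at h
        cases h
    · rw [gridNode_out (v := (i, j)) h1] at h
      cases h

theorem grid_size (a b : ℕ) (g : Fin a × Fin b → Fin N) (c : Bool) :
    (grid a b g c).size = (a + 1) * (b + 1) := by
  have h1 : (grid a b g c).size = Fintype.card (Fin (a + 1) × Fin (b + 1)) := rfl
  rw [h1, Fintype.card_prod, Fintype.card_fin, Fintype.card_fin]

theorem gridNode_test {a b : ℕ} {g : Fin a × Fin b → Fin N} {c : Bool}
    {v p q : Fin (a + 1) × Fin (b + 1)} {k : Fin N} (h : gridNode a b g c v = .test k p q) :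
    ∃ (h₁ : v.1.val < a) (h₂ : v.2.val < b), g (⟨v.1.val, h₁⟩, ⟨v.2.val, h₂⟩) = k := by
  by_cases h1 : v.1.val < a
  · by_cases h2 : v.2.val < b
    · rw [gridNode_in h1 h2] at h
      injection h with h3 h4 h5
      exact ⟨h1, h2, h3⟩
    · rw [gridNode_end h1 h2] at h
      cases h
  · rw [gridNode_out h1] at h
    cases h

theorem gridNode_inj {a b : ℕ} {g : Fin a × Fin b → Fin N} (hg : Function.Injective g) {c : Bool}
    {v p q v' p' q' : Fin (a + 1) × Fin (b + 1)} {k : Fin N}
    (h : gridNode a b g c v = .test k p q) (h' : gridNode a b g c v' = .test k p' q') :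
    v = v' := by
  obtain ⟨h1, h2, h3⟩ := gridNode_test h
  obtain ⟨h1', h2', h3'⟩ := gridNode_test h'
  have h9 := hg (h3.trans h3'.symm)
  injection h9 with h10 h11
  exact Prod.ext (Fin.ext (Fin.mk.inj h10)) (Fin.ext (Fin.mk.inj h11))

theorem grid_readOnce (a b : ℕ) (g : Fin a × Fin b → Fin N) (hg : Function.Injective g)
    (c : Bool) : (grid a b g c).ReadOnce := by
  intro l w h
  refine (BP.nodup_of_rank ?_ h).1
  intro v v' k v₀ v₁ v₀' v₁' h1 h2
  exact congrArg _ (gridNode_inj hg h1 h2)

/-- acceptance in a grid program -/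
def gAcc (a b : ℕ) (g : Fin a × Fin b → Fin N) (c : Bool) (x : Fin N → Bool)
    (v : Fin (a + 1) × Fin (b + 1)) : Prop := (grid a b g c).Acc v x

theorem gAcc_sink {a b : ℕ} {g : Fin a × Fin b → Fin N} {c : Bool} {x : Fin N → Bool}
    {v : Fin (a + 1) × Fin (b + 1)} {d : Bool} (h : gridNode a b g c v = .sink d) :
    gAcc a b g c x v ↔ d = true := BP.acc_sink (P := grid a b g c) (v := v) h x

theorem gAcc_test {a b : ℕ} {g : Fin a × Fin b → Fin N} {c : Bool} {x : Fin N → Bool}
    {v p q : Fin (a + 1) × Fin (b + 1)} {i : Fin N} (h : gridNode a b g c v = .test i p q) :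
    gAcc a b g c x v ↔ gAcc a b g c x (if x i then q else p) :=
  BP.acc_test (P := grid a b g c) (v := v) h x

theorem grid_acc_aux (a b : ℕ) (g : Fin a × Fin b → Fin N) (c : Bool) (x : Fin N → Bool)
    (k : ℕ) : ∀ v : Fin (a + 1) × Fin (b + 1), gridRank a b v ≤ k →
      (gAcc a b g c x v ↔ ∀ i : Fin a, v.1.val ≤ i.val →
        ∃ j : Fin b, (i.val = v.1.val → v.2.val ≤ j.val) ∧ x (g (i, j)) = c) := by
  induction k with
  | zero =>
    rintro ⟨i, j⟩ hv
    unfold gridRank at hv
    by_cases h : i.val < a
    · have h1 : 0 < (a - i.val) * (b + 1) := Nat.mul_pos (by omega) (by omega)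
      simp only at hv
      omega
    · rw [gAcc_sink (gridNode_out (v := (i, j)) h)]
      refine ⟨fun _ i' hi' => ?_, fun _ => rfl⟩
      exact absurd (lt_of_le_of_lt hi' i'.2) h
  | succ k ih =>
    rintro ⟨i, j⟩ hv
    by_cases h : i.val < a
    · by_cases h' : j.val < b
      · rw [gAcc_test (gridNode_in (v := (i, j)) h h')]
        have hr := gridRank_right a b i.val j.val h'
        have hd := gridRank_down a b i.val j.val h h'
        unfold gridRank at hv
        simp only at hv
        simp only
        by_cases hx : x (g (⟨i.val, h⟩, ⟨j.val, h'⟩)) = c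
        · set D : Fin (a + 1) × Fin (b + 1) := (⟨i.val + 1, Nat.succ_lt_succ h⟩, 0) with hDdef
          set R : Fin (a + 1) × Fin (b + 1) := (i, ⟨j.val + 1, Nat.succ_lt_succ h'⟩) with hRdef
          have h2 : (if x (g (⟨i.val, h⟩, ⟨j.val, h'⟩)) = true then (if c = true then D else R)
              else (if c = true then R else D)) = D := by
            rw [hx]
            cases c <;> rfl
          rw [h2, ih D (by
            have : gridRank a b D = (a - (i.val + 1)) * (b + 1) + (b - 0) := rfl
            omega)]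
          constructor
          · intro H i' hi'
            rcases Nat.lt_or_ge i.val i'.val with h3 | h3
            · obtain ⟨j', -, hj'⟩ := H i' h3
              exact ⟨j', fun h4 => absurd h4 (by omega), hj'⟩
            · have h4 : i' = ⟨i.val, h⟩ := Fin.ext (le_antisymm h3 hi')
              subst h4
              exact ⟨⟨j.val, h'⟩, fun _ => le_rfl, hx⟩
          · intro H i' hi'
            obtain ⟨j', -, hj'⟩ := H i' (by
              have : i.val + 1 ≤ i'.val := hi'
              omega)
            exact ⟨j', fun _ => Nat.zero_le _, hj'⟩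
        · set D : Fin (a + 1) × Fin (b + 1) := (⟨i.val + 1, Nat.succ_lt_succ h⟩, 0) with hDdef
          set R : Fin (a + 1) × Fin (b + 1) := (i, ⟨j.val + 1, Nat.succ_lt_succ h'⟩) with hRdef
          have h2 : (if x (g (⟨i.val, h⟩, ⟨j.val, h'⟩)) = true then (if c = true then D else R)
              else (if c = true then R else D)) = R := by
            have h3 : x (g (⟨i.val, h⟩, ⟨j.val, h'⟩)) = !c := by
              revert hx
              cases x (g (⟨i.val, h⟩, ⟨j.val, h'⟩)) <;> cases c <;> simp
            rw [h3]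
            cases c <;> rfl
          rw [h2, ih R (by
            have : gridRank a b R = (a - i.val) * (b + 1) + (b - (j.val + 1)) := rfl
            omega)]
          constructor
          · intro H i' hi'
            obtain ⟨j', h4, hj'⟩ := H i' hi'
            refine ⟨j', fun h5 => ?_, hj'⟩
            have h6 : j.val + 1 ≤ j'.val := h4 h5
            omega
          · intro H i' hi'
            obtain ⟨j', h4, hj'⟩ := H i' hi'
            refine ⟨j', fun h5 => ?_, hj'⟩
            have h6 : j.val ≤ j'.val := h4 h5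
            change j.val + 1 ≤ j'.val
            rcases Nat.lt_or_ge j.val j'.val with h7 | h7
            · omega
            · exfalso
              apply hx
              have h8 : (⟨j.val, h'⟩ : Fin b) = j' := Fin.ext (le_antisymm h6 h7)
              have h9 : (⟨i.val, h⟩ : Fin a) = i' := Fin.ext h5.symm
              rw [h8, h9]
              exact hj'
      · rw [gAcc_sink (gridNode_end (v := (i, j)) h h')]
        constructor
        · intro h2
          cases h2
        · intro H
          obtain ⟨j', h4, -⟩ := H ⟨i.val, h⟩ le_rfl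
          have h5 : j.val ≤ j'.val := h4 rfl
          exact absurd (lt_of_le_of_lt h5 j'.2) h'
    · rw [gAcc_sink (gridNode_out (v := (i, j)) h)]
      refine ⟨fun _ i' hi' => ?_, fun _ => rfl⟩
      exact absurd (lt_of_le_of_lt hi' i'.2) h

theorem grid_acc (a b : ℕ) (g : Fin a × Fin b → Fin N) (c : Bool) (x : Fin N → Bool) :
    (grid a b g c).Accepts x ↔ ∀ i : Fin a, ∃ j : Fin b, x (g (i, j)) = c := by
  have h0 : (grid a b g c).Accepts x ↔ gAcc a b g c x (0, 0) := Iff.rfl
  rw [h0, grid_acc_aux a b g c x _ (0, 0) le_rfl]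
  constructor
  · intro H i
    obtain ⟨j, -, hj⟩ := H i (Nat.zero_le _)
    exact ⟨j, hj⟩
  · intro H i _
    obtain ⟨j, hj⟩ := H i
    exact ⟨j, fun _ => Nat.zero_le _, hj⟩

end Pool.Agent.W2helper60.RO
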